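import Pool.Agent.helper36.PP.SpecB
import Pool.Agent.helper20.MP.P1L

/-!
# pp: P1L, the `L¹` bound (adapted from helper20/MP/P1L.lean)
-/

set_option autoImplicit false

open Complex Metric Set Filter Topology MeasureTheory MPS

noncomputable section

namespace PPS

/-- the comparison on one vertical line -/
theorem P1L_line (hLEA : LEA_stmt) (hLV : LV_stmt) (hA : P1A_stmt) (hU : P1U_stmt)
    (n k : ℕ) [NeZero k] (f : Polynomial ℂ) (b g : ZMod k → ℂ) (ψ : ZMod k → ℂ → ℂ)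
    (ra R ε δ : ℝ) (A : ℕ → ℝ) (G : ℕ → ℂ → ℂ) (Q : ℕ) (h : H1 n k f b g ψ ra R ε δ A G Q)
    (x : ℝ) :
    ∫⁻ y : ℝ, ∑ q ∈ Finset.range Q, (P1L_S (A (q + 1))).indicator
      (fun w => ENNReal.ofReal (lev b g (GW G) (q + 1) w)) (⟨x, y⟩ : ℂ) ≤
    ∫⁻ y : ℝ, ∑ q ∈ Finset.range Q, (P1L_S (A (q + 1))).indicator
      (fun w => ENNReal.ofReal (dens f b g (GW G q) w)) (⟨x, y⟩ : ℂ) := by
  obtain ⟨Q', hQ', hlev⟩ := P1L_level A x Q h.sys.mono
  have hind : ∀ (F : ℕ → ℂ → ENNReal) (y : ℝ), ∑ q ∈ Finset.range Q,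
      (P1L_S (A (q + 1))).indicator (F q) (⟨x, y⟩ : ℂ) =
      (Ioo (0 : ℝ) (2 * Real.pi)).indicator
        (fun y => ∑ q ∈ Finset.range Q', F q (⟨x, y⟩ : ℂ)) y := by
    intro F y
    by_cases hy : y ∈ Ioo (0 : ℝ) (2 * Real.pi)
    · rw [indicator_of_mem hy]
      rw [← Finset.sum_subset (Finset.range_mono hQ')]
      · refine Finset.sum_congr rfl fun q hq => ?_
        have hq' : q < Q' := Finset.mem_range.mp hq
        have hmem : (⟨x, y⟩ : ℂ) ∈ P1L_S (A (q + 1)) :=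
          ⟨(hlev q (lt_of_lt_of_le hq' hQ')).mpr hq', hy.1, hy.2⟩
        rw [indicator_of_mem hmem]
      · intro q hq hq2
        have hnot : (⟨x, y⟩ : ℂ) ∉ P1L_S (A (q + 1)) := fun hm =>
          hq2 (Finset.mem_range.mpr ((hlev q (Finset.mem_range.mp hq)).mp hm.1))
        rw [indicator_of_notMem hnot]
    · rw [indicator_of_notMem hy]
      refine Finset.sum_eq_zero fun q _ => ?_
      have hnot : (⟨x, y⟩ : ℂ) ∉ P1L_S (A (q + 1)) := fun hm => hy ⟨hm.2.1, hm.2.2⟩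
      rw [indicator_of_notMem hnot]
  simp only [hind]
  rw [lintegral_indicator measurableSet_Ioo, lintegral_indicator measurableSet_Ioo]
  rcases Nat.eq_zero_or_pos Q' with h0 | hpos
  · subst h0
    simp
  have hx : x < -A Q' := by
    have h1 := (hlev (Q' - 1) (by omega)).mpr (by omega)
    rwa [Nat.sub_add_cancel hpos] at h1
  have hmem : ∀ y : ℝ, (⟨x, y⟩ : ℂ) ∈ HP (A Q') := fun y => hx
  have hdeg : 1 ≤ f.natDegree := by
    rw [h.su.hdeg]
    exact le_trans one_le_two h.su.hn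
  have hLS : LevSys f b g (GW G) (HP (A Q')) Q' :=
    (hA n k f b g ψ ra R ε δ A G Q h).2.2.2.1 Q' hQ'
  have hopen : IsOpen (HP (A Q')) := isOpen_lt Complex.continuous_re continuous_const
  have hlea := hLEA k f b g (GW G) (HP (A Q')) Q' h.su.cyc hopen hLS
  have hlv := hLV k f b g (GW G) (HP (A Q')) Q' hdeg h.su.cyc hopen hLS
  have hcp : Continuous fun y : ℝ => (⟨x, y⟩ : ℂ) := by
    have h1 : (fun y : ℝ => (⟨x, y⟩ : ℂ)) = fun y : ℝ => (x : ℂ) + y * Complex.I := by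
      funext y
      apply Complex.ext <;> simp
    rw [h1]
    fun_prop
  have hct : ∀ q ≤ Q', Continuous fun y : ℝ => tau b g (GW G) q (⟨x, y⟩ : ℂ) :=
    fun q hq => (hlea.2.2.1 q hq).continuousOn.comp_continuous hcp hmem
  have hcb : ∀ q < Q', Continuous fun y : ℝ =>
      tau b g (GW G) q (⟨x, y⟩ : ℂ) - tau b g (GW G) (q + 1) (⟨x, y⟩ : ℂ) :=
    fun q hq => (hct q hq.le).sub (hct (q + 1) hq)
  have hzero : ∀ q < Q', ∫ y in (0 : ℝ)..(2 * Real.pi),
      (tau b g (GW G) q (⟨x, y⟩ : ℂ) - tau b g (GW G) (q + 1) (⟨x, y⟩ : ℂ)).re = 0 := by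
    intro q hq
    obtain ⟨H, hH, hH0, hHe⟩ := (hU n k f b g ψ ra R ε δ A G Q h).1 q (by omega)
    obtain ⟨H', hH', hH0', hHe'⟩ := (hU n k f b g ψ ra R ε δ A G Q h).1 (q + 1) (by omega)
    have hxq : x < -A (q + 1) := (hlev q (by omega)).mpr hq
    have hAq : A q ≤ A (q + 1) := h.sys.mono q (by omega)
    have h1 := P1L_circle (Real.exp (-A (q + 1))) (Real.exp x) (Real.exp_pos x)
      (Real.exp_lt_exp.mpr hxq) (fun u => H u - H' u)
      ((hH.mono (ball_subset_ball (Real.exp_le_exp.mpr (neg_le_neg hAq)))).sub hH')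
      (by simp only [hH0, hH0', sub_self])
    refine Eq.trans ?_ h1
    refine intervalIntegral.integral_congr fun y _ => ?_
    have h2 : Complex.exp (⟨x, y⟩ : ℂ) = circleMap 0 (Real.exp x) y := by
      have h3 : (⟨x, y⟩ : ℂ) = (x : ℂ) + y * Complex.I := by
        apply Complex.ext <;> simp
      rw [h3, Complex.exp_add, circleMap, zero_add, Complex.ofReal_exp]
    show (tau b g (GW G) q (⟨x, y⟩ : ℂ) - tau b g (GW G) (q + 1) (⟨x, y⟩ : ℂ)).re =
      (H (circleMap 0 (Real.exp x) y) - H' (circleMap 0 (Real.exp x) y)).re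
    have hxq' : x < -A q := lt_of_lt_of_le hxq (neg_le_neg hAq)
    rw [hHe _ hxq', hHe' _ hxq, h2]
  have hcore := P1L_core (Finset.range Q')
    (fun q y => tau b g (GW G) q (⟨x, y⟩ : ℂ) - tau b g (GW G) (q + 1) (⟨x, y⟩ : ℂ))
    (fun q hq => hcb q (Finset.mem_range.mp hq)) (fun q hq => hzero q (Finset.mem_range.mp hq))
    (fun y => ∑ q ∈ Finset.range Q', ENNReal.ofReal (dens f b g (GW G q) (⟨x, y⟩ : ℂ))) ?_
  · refine le_trans (le_of_eq ?_) hcore
    refine lintegral_congr fun y => ?_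
    rw [ENNReal.ofReal_sum_of_nonneg fun q _ => norm_nonneg _]
    rfl
  · intro y
    refine le_trans (ENNReal.ofReal_le_ofReal ?_) (P1L_ofReal_sum_le _ _)
    have h1 := hlv.1 Q' le_rfl (⟨x, y⟩ : ℂ) (hmem y)
    have h2 := Complex.re_le_norm (tau b g (GW G) Q' (⟨x, y⟩ : ℂ))
    have h3 : ∑ i ∈ Finset.range Q', (‖tau b g (GW G) i (⟨x, y⟩ : ℂ) -
        tau b g (GW G) (i + 1) (⟨x, y⟩ : ℂ)‖ - (tau b g (GW G) i (⟨x, y⟩ : ℂ) -
        tau b g (GW G) (i + 1) (⟨x, y⟩ : ℂ)).re) =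
      ∑ q ∈ Finset.range Q', (lev b g (GW G) (q + 1) (⟨x, y⟩ : ℂ) -
        (tau b g (GW G) q (⟨x, y⟩ : ℂ) - tau b g (GW G) (q + 1) (⟨x, y⟩ : ℂ)).re) := rfl
    rw [h3]
    linarith

theorem P1L (hLEA : LEA_stmt) (hLV : LV_stmt) (hA : P1A_stmt) (hU : P1U_stmt) (hMI : MI_stmt)
    (hMA : MA_stmt) : P1L_stmt := by
  intro n k _ f b g ψ ra R ε δ A G Q h
  have hPA := hA n k f b g ψ ra R ε δ A G Q h
  have hdeg : 1 ≤ f.natDegree := by
    rw [h.su.hdeg]
    exact le_trans one_le_two h.su.hn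
  have hLS : ∀ q ≤ Q, LevSys f b g (GW G) (HP (A q)) q := hPA.2.2.2.1
  -- the sum over the levels
  have hsum : ∑ q ∈ Finset.Icc 1 Q, ∫⁻ w in {w : ℂ | w.re < -A q ∧ 0 < w.im ∧ w.im < 2 * Real.pi},
      ENNReal.ofReal (lev b g (GW G) q w) =
      ∑ q ∈ Finset.range Q, ∫⁻ w in P1L_S (A (q + 1)),
        ENNReal.ofReal (lev b g (GW G) (q + 1) w) := by
    rw [Finset.range_eq_Ico, Finset.sum_Ico_add' (fun q => ∫⁻ w in P1L_S (A q),
      ENNReal.ofReal (lev b g (GW G) q w)) 0 Q 1, zero_add]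
    rfl
  rw [hsum]
  have hlea := fun q (hq : q ≤ Q) => hLEA k f b g (GW G) (HP (A q)) q h.su.cyc
    (isOpen_lt Complex.continuous_re continuous_const) (hLS q hq)
  have hSsub : ∀ q, P1L_S (A q) ⊆ HP (A q) := fun q w hw => hw.1
  -- measurability
  have hmeasS : ∀ q, MeasurableSet (P1L_S (A q)) := fun q => (P1L_S_open _).measurableSet
  have hlevm : ∀ q < Q, AEMeasurable (fun w => ENNReal.ofReal (lev b g (GW G) (q + 1) w))
      (volume.restrict (P1L_S (A (q + 1)))) := by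
    intro q hq
    have h0 := hlea (q + 1) hq
    have h1 : ContinuousOn (fun w => ‖tau b g (GW G) q w - tau b g (GW G) (q + 1) w‖)
        (P1L_S (A (q + 1))) :=
      (((h0.2.2.1 q (Nat.le_succ q)).continuousOn.mono (hSsub _)).sub
        ((h0.2.2.1 (q + 1) le_rfl).continuousOn.mono (hSsub _))).norm
    exact (h1.aemeasurable (hmeasS _)).ennreal_ofReal
  have hGdiff : ∀ q < Q, DifferentiableOn ℂ (GW G q) (P1L_S (A (q + 1))) := fun q hq =>
    P1L_GW_cont G q (A q) (A (q + 1)) (h.sys.mono q hq) (hPA.1 q hq.le)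
  have hdensm : ∀ q < Q, AEMeasurable (fun w => ENNReal.ofReal (dens f b g (GW G q) w))
      (volume.restrict (P1L_S (A (q + 1)))) := by
    intro q hq
    obtain ⟨-, -, hm2, hm3, -⟩ := hMI k f b g hdeg
    have h1 : AEMeasurable (GW G q) (volume.restrict (P1L_S (A (q + 1)))) :=
      (hGdiff q hq).continuousOn.aemeasurable (hmeasS _)
    have h2 : AEMeasurable (fun w => (Df f b g (GW G q w) + 2 * ‖er f b g (GW G q w)‖) *
        ‖deriv (GW G q) w‖ ^ 2) (volume.restrict (P1L_S (A (q + 1)))) := by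
      refine AEMeasurable.mul (AEMeasurable.add (hm3.comp_aemeasurable h1)
        ((hm2.comp_aemeasurable h1).norm.const_mul 2)) ?_
      exact ((measurable_deriv _).norm.pow_const 2).aemeasurable
    exact h2.ennreal_ofReal
  -- the first sum
  have hmain : ∑ q ∈ Finset.range Q, ∫⁻ w in P1L_S (A (q + 1)),
        ENNReal.ofReal (lev b g (GW G) (q + 1) w) ≤
      ∑ q ∈ Finset.range Q, ∫⁻ w in P1L_S (A (q + 1)),
        ENNReal.ofReal (dens f b g (GW G q) w) := by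
    have hint : ∀ F : ℕ → ℂ → ENNReal, (∀ q < Q, AEMeasurable (F q)
        (volume.restrict (P1L_S (A (q + 1))))) →
        ∑ q ∈ Finset.range Q, ∫⁻ w in P1L_S (A (q + 1)), F q w =
        ∫⁻ x : ℝ, ∫⁻ y : ℝ, ∑ q ∈ Finset.range Q, (P1L_S (A (q + 1))).indicator (F q)
          (⟨x, y⟩ : ℂ) := by
      intro F hF
      have hF' : ∀ q ∈ Finset.range Q, AEMeasurable ((P1L_S (A (q + 1))).indicator (F q)) := by
        intro q hq
        exact (aemeasurable_indicator_iff (hmeasS _)).mpr (hF q (Finset.mem_range.mp hq))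
      rw [← P1L_prod (fun w => ∑ q ∈ Finset.range Q, (P1L_S (A (q + 1))).indicator (F q) w)
        (Finset.aemeasurable_fun_sum _ hF'), lintegral_finsetSum' _ hF']
      refine Finset.sum_congr rfl fun q _ => ?_
      rw [lintegral_indicator (hmeasS _)]
    rw [hint _ hlevm, hint _ hdensm]
    exact lintegral_mono fun x => P1L_line hLEA hLV hA hU n k f b g ψ ra R ε δ A G Q h x
  -- MA
  have hma := hMA n k f b g R h.su.hn h.su.hdeg h.su.cyc h.su.rho1 h.su.posR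
    (fun j => lt_of_le_of_lt (h.su.hra j) h.su.hR) h.su.inv Q 1
    (fun q => P1L_S (A (q + 1))) (GW G) ?_ ?_
  · rw [Nat.cast_one, one_mul, one_mul] at hma
    refine (hmain.trans hma.1).trans ?_
    have h1 : 0 ≤ ∫ z in ball (0 : ℂ) R, ‖er f b g z‖ := integral_nonneg fun z => norm_nonneg _
    refine ENNReal.ofReal_le_ofReal ?_
    have h3 := h.su.hE
    linarith
  · intro q hq
    refine ⟨P1L_S_open _, hGdiff q hq, ?_, ?_⟩
    · intro w hw w' hw' hww
      refine P1L_exp_inj _ hw hw' ?_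
      exact hPA.2.1 q hq.le (P1L_exp_mem _ _ (h.sys.mono q hq) w hw.1)
        (P1L_exp_mem _ _ (h.sys.mono q hq) w' hw'.1) hww
    · intro w hw
      exact hPA.2.2.1 q hq.le (P1L_exp_mem _ _ (h.sys.mono q hq) w hw.1)
  · intro z F hF
    rw [Finset.card_le_one]
    have hdis : ∀ q q', q ∈ F → q' ∈ F → ¬ q < q' := by
      intro q q' hq hq' hlt
      obtain ⟨h1, w, hw, hwz⟩ := hF q hq
      obtain ⟨h2, w', hw', hwz'⟩ := hF q' hq'
      have hd := hPA.2.2.2.2.1 q q' hlt h2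
      have e1 : z ∈ G q '' ball 0 (Real.exp (-A (q + 1))) :=
        ⟨Complex.exp w, P1L_exp_mem _ _ le_rfl w hw.1, hwz⟩
      have e2 : z ∈ G q' '' ball 0 (Real.exp (-A (q' + 1))) :=
        ⟨Complex.exp w', P1L_exp_mem _ _ le_rfl w' hw'.1, hwz'⟩
      exact Set.disjoint_left.mp hd e1 e2
    intro q hq q' hq'
    rcases Nat.lt_trichotomy q q' with h1 | h1 | h1
    · exact absurd h1 (hdis q q' hq hq')
    · exact h1
    · exact absurd h1 (hdis q' q hq' hq)

end PPS
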