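import Pool.Agent.helper36.PP.SpecM

/-! # Project pp (MP_70a088_an): module VAN: no polynomial part -/

set_option autoImplicit false

open Complex Metric Set Filter Topology MeasureTheory MPS MQ Pool.Agent.helper98.ILF

noncomputable section

namespace PPS

/-- A bounded form with bounded support times a polynomial is integrable. -/
theorem VAN_int {A : ℝ} {μ : ℂ → ℂ} (hm : Measurable μ) (hb : ∀ z, ‖μ z‖ ≤ 1)
    (hs : ∀ z, μ z ≠ 0 → ‖z‖ < A) (P : Polynomial ℂ) :
    Integrable (fun z => μ z * P.eval z) := by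
  have hc : Continuous fun z : ℂ => ‖P.eval z‖ := P.continuous.norm
  have hi : Integrable ((closedBall (0 : ℂ) A).indicator fun z : ℂ => ‖P.eval z‖) :=
    (hc.continuousOn.integrableOn_compact (isCompact_closedBall (0 : ℂ) A)).integrable_indicator
      isClosed_closedBall.measurableSet
  refine hi.mono' ?_ ?_
  · exact (hm.mul P.continuous.measurable).aestronglyMeasurable
  · refine Filter.Eventually.of_forall fun z => ?_
    by_cases hz : μ z = 0
    · rw [hz, zero_mul, norm_zero]
      exact Set.indicator_nonneg (fun _ _ => norm_nonneg _) z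
    · have hzA : z ∈ closedBall (0 : ℂ) A := by
        rw [mem_closedBall, dist_zero_right]
        exact (hs z hz).le
      rw [Set.indicator_of_mem hzA, norm_mul]
      calc ‖μ z‖ * ‖P.eval z‖ ≤ 1 * ‖P.eval z‖ :=
            mul_le_mul_of_nonneg_right (hb z) (norm_nonneg _)
        _ = ‖P.eval z‖ := one_mul _

theorem VAN_cv {f : Polynomial ℂ} (hfin : (CV f).Finite) : ∀ᵐ z : ℂ, z ∉ CV f := by
  rw [ae_iff]
  simp only [not_not]
  exact hfin.measure_zero volume

theorem VAN (hIP2 : IP2_stmt) (hRAN : RAN_stmt) (hREL2 : REL2_stmt) (hCTA : CTA_stmt)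
    (hPRB : PRB_stmt) : VAN_stmt := by
  intro f A μ β hn hPR h0 b
  have hn1 : 1 ≤ f.natDegree := by omega
  obtain ⟨hintμ, -, -, -, -, -⟩ := hCTA μ A hPR.measμ hPR.bdμ hPR.suppμ
  obtain ⟨hintβ, -, -, -, -, -⟩ := hCTA β A hPR.measβ hPR.bdβ hPR.suppβ
  have hint : ∀ b, Integrable (fun z => (μ z + β z) / (z - b)) := by
    intro b
    refine ((hintμ b).add (hintβ b)).congr (Filter.Eventually.of_forall fun z => ?_)
    simp [add_div]
  obtain ⟨-, -, -, -, hfin, -⟩ := hPRB f hn1
  have hset : {y : ℂ | f.eval y ∈ (univ : Set ℂ)} = univ := by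
    ext y
    simp
  have hpoly : ∀ Q : Polynomial ℂ, Q.natDegree + 2 ≤ f.natDegree →
      ∫ z : ℂ, μ z * Q.eval z = 0 := by
    intro Q hQ
    obtain ⟨s, hs⟩ := hRAN f Q hfin.toFinset hn hQ (fun v => hfin.mem_toFinset)
    obtain ⟨-, h2⟩ := hIP2 f μ (fun z => μ z + β z) hn1 hPR.measμ
      (hPR.measμ.add hPR.measβ) hPR.inv (fun y => Q.eval y) univ Q.continuous.measurable
      MeasurableSet.univ (by
        rw [hset, integrableOn_univ]
        exact VAN_int hPR.measμ hPR.bdμ hPR.suppμ Q)
    rw [hset, setIntegral_univ, setIntegral_univ] at h2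
    have h3 : (fun z => (μ z + β z) * TT f (fun y => Q.eval y) z) =ᵐ[volume]
        fun z => ∑ v ∈ hfin.toFinset, s v * ((μ z + β z) / (z - v)) := by
      filter_upwards [VAN_cv hfin] with z hz
      rw [hs z (fun h => hz (hfin.mem_toFinset.1 h)), Finset.mul_sum]
      refine Finset.sum_congr rfl fun v _ => ?_
      ring
    rw [← h2, integral_congr_ae h3, integral_finsetSum _ (fun v _ => (hint v).const_mul _)]
    refine Finset.sum_eq_zero fun v hv => ?_
    rw [integral_const_mul]
    have h4 : ∫ z : ℂ, (μ z + β z) / (z - v) = 0 := h0 v (hfin.mem_toFinset.1 hv)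
    rw [h4, mul_zero]
  have hdeg : (f.derivative /ₘ (Polynomial.X - Polynomial.C b)).natDegree + 2
      ≤ f.natDegree := by
    have h1 := Polynomial.natDegree_divByMonic f.derivative (Polynomial.monic_X_sub_C b)
    have h2 := Polynomial.natDegree_derivative_le f
    rw [Polynomial.natDegree_X_sub_C] at h1
    omega
  have h1 := hREL2 f A μ β hn hPR b
  rw [hpoly _ hdeg, sub_zero] at h1
  rw [h1]
  have h5 : NLF.CT (fun z => μ z + β z) (f.eval b) =
      ∫ z : ℂ, (μ z / (z - f.eval b) + β z / (z - f.eval b)) := by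
    unfold NLF.CT
    refine integral_congr_ae (Filter.Eventually.of_forall fun z => ?_)
    simp [add_div]
  rw [h5, integral_add (hintμ _) (hintβ _)]
  rfl

end PPS
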