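import Pool.Agent.helper25.PP.Spec

/-!
# Module GD2 of project pp
-/

set_option autoImplicit false

namespace PP

open Finset SimpleGraph CT

theorem GD2_cases {D : Type*} [DecidableEq D] (e : D → D) (a b : D)
    (h1 : b ≠ a) (h2 : e a ≠ a) (h3 : e a ≠ b) (h4 : e b ≠ a) (h5 : e b ≠ b) (h6 : e b ≠ e a) :
    rmt e a b a = e b ∧ rmt e a b b = e a ∧ rmt e a b (e a) = b ∧ rmt e a b (e b) = a ∧
    ∀ z, z ≠ a → z ≠ b → z ≠ e a → z ≠ e b → rmt e a b z = e z := by
  refine ⟨?_, ?_, ?_, ?_, ?_⟩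
  · simp [rmt]
  · simp [rmt, h1]
  · simp [rmt, h2, h3]
  · simp [rmt, h4, h5, h6]
  · intro z z1 z2 z3 z4
    simp [rmt, z1, z2, z3, z4]

theorem GD2_main {V : Type} [Fintype V] [DecidableEq V] (G : SimpleGraph V)
    (e : V × Fin 4 → V × Fin 4) (a b : V × Fin 4) (hR : Rep G e)
    (hO : Ok G a.1 (e a).1 (e b).1 b.1) :
    Rep (sw G a.1 (e a).1 (e b).1 b.1) (rmt e a b) := by
  classical
  obtain ⟨⟨hinv, hfix⟩, hadj, hex, hinj⟩ := hR
  obtain ⟨o1, o2, o3, o4, o5, o6⟩ := hO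
  have hinj' : ∀ d d' : V × Fin 4, d.1 = d'.1 → (e d).1 = (e d').1 → d = d' := by
    rintro ⟨u, j⟩ ⟨u', j'⟩ h h'
    simp only at h
    subst h
    rw [hinj u j j' h']
  have hadj' : ∀ d : V × Fin 4, G.Adj d.1 (e d).1 := fun d => hadj d.1 d.2
  have hne : ∀ d : V × Fin 4, e d ≠ d := by
    intro d
    rw [hfix]
    simp [dts]
  have n1 : a.1 ≠ b.1 := by
    intro h
    exact o5 (by rw [h]; exact o2.symm)
  have n2 : (e a).1 ≠ (e b).1 := by
    intro h
    exact o5 (by rw [← h]; exact o1)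
  have n3 : a.1 ≠ (e a).1 := o1.ne
  have n4 : (e b).1 ≠ b.1 := o2.ne
  have h1 : b ≠ a := fun h => n1 (by rw [h])
  have h2 : e a ≠ a := hne a
  have h3 : e a ≠ b := fun h => o4 (by rw [h])
  have h4 : e b ≠ a := fun h => o3 (by rw [h])
  have h5 : e b ≠ b := hne b
  have h6 : e b ≠ e a := fun h => n2 (by rw [h])
  obtain ⟨r1, r2, r3, r4, r5⟩ := GD2_cases e a b h1 h2 h3 h4 h5 h6
  have hall : ∀ z, z = a ∨ z = b ∨ z = e a ∨ z = e b ∨
      (z ≠ a ∧ z ≠ b ∧ z ≠ e a ∧ z ≠ e b) := by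
    intro z
    by_cases c1 : z = a
    · exact Or.inl c1
    by_cases c2 : z = b
    · exact Or.inr (Or.inl c2)
    by_cases c3 : z = e a
    · exact Or.inr (Or.inr (Or.inl c3))
    by_cases c4 : z = e b
    · exact Or.inr (Or.inr (Or.inr (Or.inl c4)))
    exact Or.inr (Or.inr (Or.inr (Or.inr ⟨c1, c2, c3, c4⟩)))
  have hmem : ∀ d : V × Fin 4, d ∈ dts (univ : Finset V) := by
    intro d
    simp [dts]
  have hadj2 : ∀ d : V × Fin 4, (sw G a.1 (e a).1 (e b).1 b.1).Adj d.1 (rmt e a b d).1 := by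
    intro d
    rcases hall d with rfl | rfl | rfl | rfl | ⟨d1, d2, d3, d4⟩
    · rw [r1]
      exact Or.inr ⟨o3, Or.inl rfl⟩
    · rw [r2]
      exact Or.inr ⟨o4.symm, Or.inr Sym2.eq_swap⟩
    · rw [r3]
      exact Or.inr ⟨o4, Or.inr rfl⟩
    · rw [r4]
      exact Or.inr ⟨o3.symm, Or.inl Sym2.eq_swap⟩
    · rw [r5 d d1 d2 d3 d4]
      refine Or.inl ⟨hadj' d, ?_, ?_⟩
      · intro h
        rw [Sym2.eq_iff] at h
        rcases h with ⟨x, y⟩ | ⟨x, y⟩
        · exact d1 (hinj' _ _ x y)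
        · exact d3 (hinj' _ _ x (by rw [hinv]; exact y))
      · intro h
        rw [Sym2.eq_iff] at h
        rcases h with ⟨x, y⟩ | ⟨x, y⟩
        · exact d4 (hinj' _ _ x (by rw [hinv]; exact y))
        · exact d2 (hinj' _ _ x y)
  have hex2 : ∀ u w, (sw G a.1 (e a).1 (e b).1 b.1).Adj u w → ∃ d : V × Fin 4, d.1 = u ∧
      (rmt e a b d).1 = w := by
    intro u w h
    rcases h with ⟨g1, g2, g3⟩ | ⟨g1, g2⟩
    · obtain ⟨k, hk⟩ := hex u w g1
      refine ⟨(u, k), rfl, ?_⟩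
      rw [r5, hk]
      · intro h
        apply g2
        rw [← hk, h, ← h]
      · intro h
        apply g3
        rw [← hk, h, ← h]
        exact Sym2.eq_swap
      · intro h
        apply g2
        rw [← hk, h, hinv, ← h]
        exact Sym2.eq_swap
      · intro h
        apply g3
        rw [← hk, h, hinv, ← h]
    · rcases g2 with g2 | g2 <;> rw [Sym2.eq_iff] at g2 <;> rcases g2 with ⟨rfl, rfl⟩ | ⟨rfl, rfl⟩
      · exact ⟨a, rfl, by rw [r1]⟩
      · exact ⟨e b, rfl, by rw [r4]⟩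
      · exact ⟨e a, rfl, by rw [r3]⟩
      · exact ⟨b, rfl, by rw [r2]⟩
  have hord : ∀ d d' : V × Fin 4, (d = a ∨ d = b ∨ d = e a ∨ d = e b) →
      (d' ≠ a ∧ d' ≠ b ∧ d' ≠ e a ∧ d' ≠ e b) → d.1 = d'.1 →
      (rmt e a b d).1 = (rmt e a b d').1 → False := by
    intro d d' hd hd' h h'
    obtain ⟨d1, d2, d3, d4⟩ := hd'
    rw [r5 d' d1 d2 d3 d4] at h'
    have hA := hadj' d'
    rw [← h, ← h'] at hA
    rcases hd with rfl | rfl | rfl | rfl
    · rw [r1] at hA
      exact o5 hA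
    · rw [r2] at hA
      exact o6 hA.symm
    · rw [r3] at hA
      exact o6 hA
    · rw [r4] at hA
      exact o5 hA.symm
  refine ⟨⟨?_, ?_⟩, ?_, ?_, ?_⟩
  · intro d
    rcases hall d with rfl | rfl | rfl | rfl | ⟨d1, d2, d3, d4⟩
    · rw [r1, r4]
    · rw [r2, r3]
    · rw [r3, r2]
    · rw [r4, r1]
    · rw [r5 d d1 d2 d3 d4, r5 (e d), hinv]
      · intro h
        exact d3 (by rw [← h, hinv])
      · intro h
        exact d4 (by rw [← h, hinv])
      · intro h
        exact d1 (by rw [← hinv d, h, hinv])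
      · intro h
        exact d2 (by rw [← hinv d, h, hinv])
  · intro d
    refine ⟨fun _ => hmem d, fun _ h => ?_⟩
    have := (hadj2 d).ne
    rw [h] at this
    exact this rfl
  · intro u j
    exact hadj2 (u, j)
  · intro u w h
    obtain ⟨⟨u', j⟩, h1, h2⟩ := hex2 u w h
    simp only at h1
    subst h1
    exact ⟨j, h2⟩
  · intro u j k hh
    have key : ∀ d d' : V × Fin 4, d.1 = d'.1 → (rmt e a b d).1 = (rmt e a b d').1 → d = d' := by
      clear hh
      intro d d' h h'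
      have e1 : ∀ z : V × Fin 4, (z = a ∨ z = b ∨ z = e a ∨ z = e b) ∨
          (z ≠ a ∧ z ≠ b ∧ z ≠ e a ∧ z ≠ e b) := by
        intro z
        rcases hall z with g | g | g | g | g
        · exact Or.inl (Or.inl g)
        · exact Or.inl (Or.inr (Or.inl g))
        · exact Or.inl (Or.inr (Or.inr (Or.inl g)))
        · exact Or.inl (Or.inr (Or.inr (Or.inr g)))
        · exact Or.inr g
      rcases e1 d with g1 | f1 <;> rcases e1 d' with g2 | f2
      · clear hord hadj2 hex2 e1 h'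
        rcases g1 with g1 | g1 | g1 | g1 <;> rcases g2 with g2 | g2 | g2 | g2 <;>
          rw [g1, g2] at h ⊢
        · exact absurd h n1
        · exact absurd h n3
        · exact absurd h o3
        · exact absurd h.symm n1
        · exact absurd h.symm o4
        · exact absurd h.symm n4
        · exact absurd h.symm n3
        · exact absurd h o4
        · exact absurd h n2
        · exact absurd h.symm o3
        · exact absurd h n4
        · exact absurd h.symm n2
      · exact (hord d d' g1 f2 h h').elim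
      · exact (hord d' d g2 f1 h.symm h'.symm).elim
      · rw [r5 d f1.1 f1.2.1 f1.2.2.1 f1.2.2.2, r5 d' f2.1 f2.2.1 f2.2.2.1 f2.2.2.2] at h'
        exact hinj' _ _ h h'
    have := key (u, j) (u, k) rfl hh
    exact congrArg Prod.snd this

theorem GD2 : GD2_stmt := by
  intro V _ _ G e v i b hR hO
  exact GD2_main G e (v, i) b hR hO

end PP
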